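import Pool.Agent.K1H92.ZO.Defs

/-!
# The map from the quaternions to the rotations
-/

set_option autoImplicit false

namespace Pool.Agent.K1H48.ZO

open MeasureTheory Set Matrix Topology
open Pool.Agent.K1H92.ZO
open Pool.Agent.H762R3.Rot (rotM rotM_mul rotM_transpose rotM_det rho_surj mem_iff unit_eq rho)

/-- the quaternion of a pair -/
def qt (p : X) : Quaternion ℝ := ⟨p.1, p.2 0, p.2 1, p.2 2⟩

theorem nsq_qmul (p q : X) : nsq (qmul p q) = nsq p * nsq q := by
  simp only [nsq, qmul, Matrix.cons_val_zero, Matrix.cons_val_one, Matrix.cons_val]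
  ring

theorem qt_qmul (p q : X) : qt (qmul p q) = qt p * qt q := by
  ext <;> simp [qt, qmul] <;> ring

theorem rotM_smul (c : ℝ) (p : X) : rotM (qt (c • p)) = c ^ 2 • rotM (qt p) := by
  ext i j
  fin_cases i <;> fin_cases j <;> simp [rotM, qt] <;> ring

theorem nsq_smul (c : ℝ) (p : X) : nsq (c • p) = c ^ 2 * nsq p := by
  simp only [nsq, Prod.smul_fst, Prod.smul_snd, Pi.smul_apply, smul_eq_mul]
  ring

theorem nsq_eq_zero {p : X} (h : nsq p = 0) : p = 0 := by
  unfold nsq at h
  have k0 := sq_nonneg p.1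
  have k1 := sq_nonneg (p.2 0)
  have k2 := sq_nonneg (p.2 1)
  have k3 := sq_nonneg (p.2 2)
  have h0 : p.1 = 0 := pow_eq_zero_iff two_ne_zero |>.1 (by linarith)
  have h1 : p.2 0 = 0 := pow_eq_zero_iff two_ne_zero |>.1 (by linarith)
  have h2 : p.2 1 = 0 := pow_eq_zero_iff two_ne_zero |>.1 (by linarith)
  have h3 : p.2 2 = 0 := pow_eq_zero_iff two_ne_zero |>.1 (by linarith)
  refine Prod.ext h0 (funext fun i => ?_)
  fin_cases i
  · exact h1
  · exact h2
  · exact h3

theorem mem_of (p : X) (hp : nsq p ≠ 0) :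
    (nsq p)⁻¹ • rotM (qt p) ∈ Matrix.specialOrthogonalGroup (Fin 3) ℝ := by
  rw [mem_iff]
  constructor
  · rw [Matrix.transpose_smul, Matrix.smul_mul, Matrix.mul_smul, rotM_transpose, smul_smul,
      smul_smul]
    have e : (qt p).re ^ 2 + (qt p).imI ^ 2 + (qt p).imJ ^ 2 + (qt p).imK ^ 2 = nsq p := rfl
    rw [e]
    have : (nsq p)⁻¹ * (nsq p)⁻¹ * nsq p ^ 2 = 1 := by
      field_simp
    rw [this, one_smul]
  · rw [Matrix.det_smul, rotM_det]
    have e : (qt p).re ^ 2 + (qt p).imI ^ 2 + (qt p).imJ ^ 2 + (qt p).imK ^ 2 = nsq p := rfl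
    rw [e, Fintype.card_fin]
    field_simp

theorem R_val (p : X) (hp : nsq p ≠ 0) :
    (R p).1 = (nsq p)⁻¹ • Pool.Agent.H762R3.Rot.rotM ⟨p.1, p.2 0, p.2 1, p.2 2⟩ := by
  have h := mem_of p hp
  have e : R p = ⟨_, h⟩ := dif_pos h
  rw [e]
  rfl

theorem cont_R : ContinuousOn R {(0 : X)}ᶜ := by
  rw [Topology.IsInducing.subtypeVal.continuousOn_iff]
  have h1 : ContinuousOn (fun p : X => (nsq p)⁻¹ • rotM (qt p)) {(0 : X)}ᶜ := by
    have c1 : ContinuousOn (fun p : X => (nsq p)⁻¹) {(0 : X)}ᶜ := by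
      refine ContinuousOn.inv₀ ?_ ?_
      · unfold nsq
        fun_prop
      · intro p hp h
        exact hp (nsq_eq_zero h)
    have c2 : Continuous (fun p : X => rotM (qt p)) := by
      refine continuous_matrix fun i j => ?_
      fin_cases i <;> fin_cases j <;> simp [rotM, qt] <;> fun_prop
    exact c1.smul c2.continuousOn
  refine h1.congr fun p hp => ?_
  exact R_val p fun h => hp (nsq_eq_zero h)

theorem rot [MeasurableSpace SO3] [BorelSpace SO3] : StmRot where
  meas := measurable_of_continuousOn_compl_singleton 0 cont_R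
  mul := by
    intro p q hp hq
    apply Subtype.ext
    have h1 : nsq (qmul p q) ≠ 0 := by
      rw [nsq_qmul]
      exact mul_ne_zero hp hq
    have e1 : (R p * R q).1 = (R p).1 * (R q).1 := rfl
    rw [e1, R_val _ h1, R_val p hp, R_val q hq, nsq_qmul]
    have e2 := congrArg rotM (qt_qmul p q)
    rw [rotM_mul] at e2
    unfold qt at e2
    rw [e2, Matrix.smul_mul, Matrix.mul_smul, smul_smul, mul_inv]
  smul := by
    intro c p hc
    by_cases hp : nsq p = 0
    · rw [nsq_eq_zero hp, smul_zero]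
    · apply Subtype.ext
      have h1 : nsq (c • p) ≠ 0 := by
        rw [nsq_smul]
        exact mul_ne_zero (pow_ne_zero 2 hc) hp
      rw [R_val _ h1, R_val p hp, nsq_smul]
      have e2 := rotM_smul c p
      unfold qt at e2
      rw [e2, smul_smul]
      congr 1
      field_simp
  surj := by
    intro g
    obtain ⟨u, hu⟩ := rho_surj g
    have h0 := unit_eq u
    refine ⟨((u : Quaternion ℝ).re, ![(u : Quaternion ℝ).imI, (u : Quaternion ℝ).imJ,
      (u : Quaternion ℝ).imK]), ?_, ?_⟩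
    · simpa [nsq] using h0
    · have h1 : nsq ((u : Quaternion ℝ).re, ![(u : Quaternion ℝ).imI, (u : Quaternion ℝ).imJ,
        (u : Quaternion ℝ).imK]) = 1 := by simpa [nsq] using h0
      apply Subtype.ext
      rw [R_val _ (by rw [h1]; exact one_ne_zero), h1, inv_one, one_smul, ← hu]
      rfl

end Pool.Agent.K1H48.ZO
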